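import Mathlib

set_option autoImplicit false

namespace Pool.Agent.Results.MP_47ab97_lc.Sep

open List

/-- `w` is a word over the alphabet `V`. -/
def Over (V : Finset ℕ) (w : List ℕ) : Prop := ∀ a ∈ w, a ∈ V

/-- `L ⊆ V*` is accepted by a complete DFA over `V` with at most `n` states. -/
def RegZ (n : ℕ) (V : Finset ℕ) (L : Set (List ℕ)) : Prop :=
  ∃ k ≤ n, ∃ (δ : Fin k → ℕ → Fin k) (z : Fin k) (F : Set (Fin k)),
    L = {w | Over V w ∧ w.foldl δ z ∈ F}

/-- Regular suffix-closed languages over `V`. -/
def Suf (V : Finset ℕ) (L : Set (List ℕ)) : Prop :=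
  (∃ n, RegZ n V L) ∧ ∀ x y, x ++ y ∈ L → y ∈ L

structure Gram where
  V : Finset ℕ
  P : List (Set (List ℕ) × Finset (List ℕ × List ℕ))
  A : Finset (List ℕ)
  hA : ∀ w ∈ A, Over V w
  hC : ∀ p ∈ P, ∀ c ∈ p.2, Over V c.1 ∧ Over V c.2

inductive Gram.Gen (G : Gram) : List ℕ → Prop
  | ax {w} : w ∈ G.A → G.Gen w
  | step {x y z u v p} : G.Gen (x ++ y ++ z) → p ∈ G.P → y ∈ p.1 → (u, v) ∈ p.2 →
      G.Gen (x ++ u ++ y ++ v ++ z)

def IC (F : Finset ℕ → Set (List ℕ) → Prop) : Set (Set (List ℕ)) :=
  {L | ∃ G : Gram, (∀ p ∈ G.P, F G.V p.1) ∧ L = {w | G.Gen w}}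

/-- Letters: `0 = b`, `1 = c`, `2 = d`. -/
def sel (n : ℕ) : Set (List ℕ) := {w | Over {0, 1, 2} w ∧ w.count 0 ≤ n}

def gr (n : ℕ) : Gram where
  V := {0, 1, 2}
  P := [(sel n, {([1], [2]), ([1], [])})]
  A := (Finset.range (2 * n + 1) ×ˢ Finset.range (n + 1)).image
    fun p => replicate p.1 0 ++ replicate p.2 2
  hA := by
    simp only [Finset.mem_image, Over]
    rintro _ ⟨p, -, rfl⟩ a h
    simp only [mem_append, mem_replicate] at h
    rcases h with h | h <;> simp [h.2]
  hC := by simp +contextual [Over, or_imp]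

theorem suf (n : ℕ) : Suf {0, 1, 2} (sel n) := by
  refine ⟨⟨n + 2, n + 2, le_rfl, fun q a => if a = 0 then ⟨min (q + 1) (n + 1), by omega⟩ else q,
    0, {q | q.1 ≤ n}, ?_⟩, fun x y h => ⟨fun a ha => h.1 a (by simp [ha]), ?_⟩⟩
  · have (w : List ℕ) : ∀ q : Fin (n + 2), (w.foldl (fun q a => if a = 0 then
        ⟨min (q + 1) (n + 1), by omega⟩ else q) q).1 = min (q + w.count 0) (n + 1) := by
      induction w with
      | nil => intro q; simp; omega
      | cons a w ih =>
        intro q
        rw [foldl_cons, ih]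
        by_cases h : a = 0 <;> simp [h]
        omega
    ext w
    simp only [sel, Set.mem_setOf_eq, this]
    simp
  · have := h.2
    simp at this
    omega

/-- Occurrences of `a` with at most `k` letters `0` to their right. -/
def cnt (a : ℕ) (k : ℤ) : List ℕ → ℕ
  | [] => 0
  | h :: t => cnt a k t + if h = a ∧ (t.count 0 : ℤ) ≤ k then 1 else 0

theorem cnt_append (a : ℕ) (k : ℤ) (p q : List ℕ) :
    cnt a k (p ++ q) = cnt a (k - q.count 0) p + cnt a k q := by
  induction p with
  | nil => simp [cnt]
  | cons h p ih =>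
    simp only [cons_append, cnt, ih, count_append, Nat.cast_add, le_sub_iff_add_le]
    omega

theorem cnt_rep (a : ℕ) (k : ℤ) (i h : ℕ) (h0 : h ≠ 0 ∨ h ≠ a) :
    cnt a k (replicate i h) = if h = a ∧ 0 ≤ k then i else 0 := by
  induction i with
  | zero => simp [cnt]
  | succ i ih =>
    rw [replicate_succ, cnt, ih]
    by_cases e : h = a
    · have : h ≠ 0 := by tauto
      simp [count_replicate, e ▸ this, e]
      split_ifs <;> rfl
    · simp [e]

theorem inv {n : ℕ} {w : List ℕ} (h : (gr n).Gen w) :
    w.count 0 ≤ 2 * n ∧ ∀ k, cnt 2 k w ≤ n + cnt 1 (k + n) w := by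
  induction h with
  | ax h =>
    simp only [gr, Finset.mem_image, Finset.mem_product, Finset.mem_range] at h
    obtain ⟨p, h, rfl⟩ := h
    refine ⟨by simp [count_replicate]; omega, fun k => ?_⟩
    simp only [cnt_append, cnt_rep 2 _ _ 0 (by simp), cnt_rep 2 _ _ 2 (by simp)]
    split_ifs <;> simp_all
    omega
  | @step x y z u v p _ h1 h2 h3 ih =>
    simp only [gr, mem_singleton] at h1
    subst h1
    have := h2.2
    simp only [Finset.mem_insert, Finset.mem_singleton, Prod.mk.injEq] at h3
    rcases h3 with ⟨rfl, rfl⟩ | ⟨rfl, rfl⟩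
    all_goals
      refine ⟨by simpa using ih.1, fun k => ?_⟩
      have := ih.2 k
      simp [cnt_append, cnt] at this ⊢
      split_ifs <;> omega

theorem mem1 (n s k j : ℕ) (hk : k ≤ 2 * n) (hj : j ≤ n) :
    (gr n).Gen (replicate s 1 ++ replicate k 0 ++ replicate j 2) := by
  induction s with
  | zero => exact .ax (Finset.mem_image.2 ⟨(k, j), by simp; omega, by simp⟩)
  | succ s ih =>
    simpa [replicate_succ] using Gram.Gen.step (G := gr n) (x := []) (y := []) (u := [1]) (v := [])
      (by simpa using ih) (mem_singleton_self _) (by simp [sel, Over]) (by simp)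

theorem mem2 (n s : ℕ) : (gr n).Gen (replicate s 1 ++ replicate n 0 ++ replicate s 2) := by
  induction s with
  | zero => exact mem1 n 0 n 0 (by omega) (by omega)
  | succ s ih =>
    have := Gram.Gen.step (G := gr n) (x := []) (z := []) (u := [1]) (v := [2])
      (y := replicate s 1 ++ replicate n 0 ++ replicate s 2)
      (by simpa using ih) (mem_singleton_self _) ⟨fun a => by simp; tauto,
        by simp [count_replicate]⟩ (by simp)
    rw [replicate_succ, replicate_succ' (a := 2)]
    simpa using this

theorem iter {G : Gram} {x y z u v : List ℕ} {p} (h : G.Gen (x ++ y ++ z)) (h1 : p ∈ G.P)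
    (h2 : y ∈ p.1) (h3 : (u, v) ∈ p.2) (k : ℕ) :
    G.Gen (x ++ (replicate k u).flatten ++ y ++ (replicate k v).flatten ++ z) := by
  induction k with
  | zero => simpa using h
  | succ k ih =>
    have := Gram.Gen.step (x := x ++ (replicate k u).flatten)
      (z := (replicate k v).flatten ++ z) (by simpa using ih) h1 h2 h3
    rw [replicate_succ' (a := u), replicate_succ (a := v)]
    simpa using this

/-- Words of the shape `1* 0* 2*`. -/
def Sh (w : List ℕ) : Prop := w.Pairwise (fun a b => a = 1 ∨ b = 2 ∨ a = 0 ∧ b = 0) ∧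
  ∀ a ∈ w, a ≤ 2

theorem shape : ∀ {w : List ℕ}, Sh w →
    w = replicate (w.count 1) 1 ++ replicate (w.count 0) 0 ++ replicate (w.count 2) 2
  | [], _ => rfl
  | a :: w, ⟨h1, h2⟩ => by
    rw [pairwise_cons] at h1
    have ih := shape ⟨h1.2, fun b hb => h2 b (by simp [hb])⟩
    have h3 := h2 a (by simp)
    interval_cases a
    · have : w.count 1 = 0 := count_eq_zero.2 fun h => by simpa using h1.1 _ h
      rw [this] at ih
      simpa [this, replicate_succ] using ih
    · simpa [replicate_succ] using ih
    · have h4 : w.count 1 = 0 := count_eq_zero.2 fun h => by simpa using h1.1 _ h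
      have h5 : w.count 0 = 0 := count_eq_zero.2 fun h => by simpa using h1.1 _ h
      rw [h4, h5] at ih
      simpa [h4, h5, replicate_succ] using ih

theorem foldl_rep {Z : Type} (δ : Z → ℕ → Z) (a i : ℕ) (q : Z) :
    (replicate i a).foldl δ q = (δ · a)^[i] q := by
  induction i generalizing q with
  | zero => rfl
  | succ i ih => simp [replicate_succ, ih]

theorem cyc {k n : ℕ} (hk : k ≤ n) (f : Fin k → Fin k) (q : Fin k) :
    ∃ i p, 0 < p ∧ i + p ≤ n ∧ ∀ t, f^[t + i + p] q = f^[t + i] q := by
  obtain ⟨i, j, h, e⟩ := Fintype.exists_ne_map_eq_of_card_lt (fun i : Fin (n + 1) => f^[i] q)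
    (by simp; omega)
  wlog l : i < j generalizing i j
  · exact this j i h.symm e.symm (lt_of_le_of_ne (not_lt.1 l) h.symm)
  refine ⟨i, j - i, by omega, by omega, fun t => ?_⟩
  rw [show t + i + (j - i) = t + j by omega, Function.iterate_add_apply, ← e,
    ← Function.iterate_add_apply]

theorem down {k n : ℕ} (hk : k ≤ n) (f : Fin k → Fin k) (q : Fin k) (t : ℕ) :
    ∃ s ≤ n, f^[s] q = f^[t] q := by
  obtain ⟨i, p, h1, h2, h3⟩ := cyc hk f q
  induction t using Nat.strong_induction_on with
  | _ t ih =>
    by_cases h : t ≤ n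
    · exact ⟨t, h, rfl⟩
    obtain ⟨s, hs, e⟩ := ih (t - p) (by omega)
    refine ⟨s, hs, e.trans ?_⟩
    convert (h3 (t - p - i)).symm using 2 <;> omega

theorem cf (a k : ℕ) (u : List ℕ) : (replicate k u).flatten.count a = k * u.count a := by
  induction k with
  | zero => simp
  | succ k ih => simp [replicate_succ, ih]; ring

theorem cnt_top (a : ℕ) (k : ℤ) (w : List ℕ) (h : (w.count 0 : ℤ) ≤ k) : cnt a k w = w.count a := by
  induction w with
  | nil => rfl
  | cons b w ih =>
    have : (w.count 0 : ℤ) ≤ k := le_trans (by exact_mod_cast count_le_count_cons) h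
    simp [cnt, ih this, this, count_cons]

theorem cnt_le (a : ℕ) (k : ℤ) (w : List ℕ) : cnt a k w ≤ if k < 0 then 0 else w.count a := by
  induction w with
  | nil => simp [cnt]
  | cons b w ih =>
    simp only [cnt, count_cons, beq_iff_eq]
    split_ifs at ih ⊢ <;> omega

theorem result (n : ℕ) (hn : 2 ≤ n) : ∃ L, L ∈ IC Suf ∧ L ∉ IC (RegZ n) := by
  refine ⟨_, ⟨gr n, by simpa [gr] using suf n, rfl⟩, ?_⟩
  rintro ⟨G, hG, e⟩
  replace e : ∀ w, (gr n).Gen w ↔ G.Gen w := fun w => Set.ext_iff.1 e w
  have key : ∀ w, G.Gen w → Sh w → w.count 0 = n → w.count 2 ≤ G.A.sup length := by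
    intro w h
    induction h with
    | ax h => exact fun _ _ => count_le_length.trans (Finset.le_sup h)
    | @step x y z u v p h h1 h2 h3 ih =>
      intro hs hc
      have it k := inv ((e _).2 (iter h h1 h2 h3 k))
      have a0 : u.count 0 + v.count 0 = 0 := by
        have := (it (2 * n + 1)).1
        simp only [count_append, cf] at this
        by_contra l
        nlinarith [Nat.one_le_iff_ne_zero.2 l]
      have hs' : Sh (x ++ y ++ z) := by
        have : x ++ y ++ z <+ x ++ u ++ y ++ v ++ z := by simp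
        exact ⟨hs.1.sublist this, fun a ha => hs.2 a (this.subset ha)⟩
      simp only [count_append] at hc ih ⊢
      by_cases a2 : u.count 2 + v.count 2 = 0
      · have := ih hs' (by omega)
        omega
      exfalso
      have a1 : u.count 1 + v.count 1 ≠ 0 := fun l => by
        have h4 := it (n + (x ++ y ++ z).count 1 + 1)
        have := h4.2 (2 * n)
        rw [cnt_top _ _ _ (by omega), cnt_top _ _ _ (by omega)] at this
        simp only [count_append, cf] at this
        nlinarith [Nat.one_le_iff_ne_zero.2 a2, show u.count 1 = 0 by omega,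
          show v.count 1 = 0 by omega]
      have hp := hs.1
      simp only [pairwise_append, mem_append] at hp
      obtain ⟨⟨⟨⟨-, -, p1⟩, -, p2⟩, -, p3⟩, -, p4⟩ := hp
      have c0 {a : ℕ} {w : List ℕ} (h : ∀ b ∈ w, b ≠ a) : w.count a = 0 :=
        count_eq_zero.2 fun l => h _ l rfl
      have c1 {a : ℕ} {w : List ℕ} (h : w.count a ≠ 0) : a ∈ w := count_pos_iff.1 (by omega)
      have x0 (h : 1 ∈ u) : x.count 0 = 0 := c0 fun b hb => by have := p1 b hb 1 h; omega
      have z0 (h : 2 ∈ v) : z.count 0 = 0 := c0 fun b hb => by have := p4 2 (.inr h) b hb; omega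
      have u2 : u.count 2 = 0 := c0 fun b hb l => by
        subst l
        have : v.count 1 = 0 := c0 fun b h => by have := p3 2 (.inl (.inr hb)) b h; omega
        have := x0 (c1 (by omega))
        have : y.count 0 = 0 := c0 fun b h => by have := p2 2 (.inr hb) b h; omega
        have : z.count 0 = 0 := c0 fun b h => by have := p4 2 (.inl (.inl (.inr hb))) b h; omega
        omega
      have v1 : v.count 1 = 0 := c0 fun b hb l => by
        subst l
        have := z0 (c1 (by omega))
        have : y.count 0 = 0 := c0 fun b h => by have := p3 b (.inr h) 1 hb; omega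
        have : x.count 0 = 0 := c0 fun b h => by have := p3 b (.inl (.inl h)) 1 hb; omega
        omega
      have := x0 (c1 (by omega))
      have := z0 (c1 (by omega))
      have hy : y <+ x ++ y ++ z := by simp
      have ey := shape ⟨hs'.1.sublist hy, fun a ha => hs'.2 a (hy.subset ha)⟩
      rw [show y.count 0 = n by omega] at ey
      obtain ⟨k, hk, δ, q, F, hF⟩ := hG p h1
      have h2' := h2
      rw [hF, ey] at h2'
      simp only [Set.mem_setOf_eq, foldl_append, foldl_rep] at h2'
      obtain ⟨i, r, r0, r1, r2⟩ := cyc hk (δ · 0) ((δ · 1)^[y.count 1] q)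
      obtain ⟨t, ht, et⟩ := down hk (δ · 2) ((δ · 0)^[n] ((δ · 1)^[y.count 1] q)) (y.count 2)
      have := r2 (n - i)
      rw [show n - i + i = n by omega] at this
      have h5 : replicate (y.count 1) 1 ++ replicate (n + r) 0 ++ replicate t 2 ∈ p.1 := by
        rw [hF]
        refine ⟨fun a ha => ?_, by simpa only [foldl_append, foldl_rep, this, et] using h2'.2⟩
        simp only [mem_append, mem_replicate] at ha
        rcases ha with (ha | ha) | ⟨-, rfl⟩
        · exact h2'.1 a (by simp [ha])
        · exact h2'.1 a (by simp [ha, show n ≠ 0 by omega])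
        · exact (G.hC p h1 _ h3).2 _ (c1 (w := v) (by omega))
      have h6 := (inv ((e _).2 (iter (x := []) (z := []) (by
        simpa using (e _).1 (mem1 n _ (n + r) t (by omega) ht)) h1 h5 h3 (n + 1)))).2 0
      have v0 : v.count 0 = 0 := by omega
      rw [append_nil, nil_append, cnt_append, cnt_top 2 0 (flatten _) (by simp [cf, v0]), cf 2,
        show ∀ a b c d e : List ℕ, a ++ (b ++ c ++ d) ++ e = (a ++ b) ++ (c ++ d ++ e) by simp,
        cnt_append 1] at h6
      have h7 := cnt_le 1 (0 + n) (replicate (n + r) 0 ++ replicate t 2 ++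
        (replicate (n + 1) v).flatten)
      have h8 := cnt_le 1 (0 + n - (replicate (n + r) 0 ++ replicate t 2 ++
        (replicate (n + 1) v).flatten).count 0 : ℤ)
        ((replicate (n + 1) u).flatten ++ replicate (y.count 1) 1)
      rw [if_pos (by simp [count_replicate]; omega)] at h8
      rw [if_neg (by omega)] at h7
      simp only [count_append (a := 1), cf, v1, count_replicate] at h7
      simp only [Nat.reduceBEq, Bool.false_eq_true, if_false] at h7
      nlinarith [show 1 ≤ v.count 2 by omega]
  have := key _ ((e _).1 (mem2 n (G.A.sup length + 1))) ⟨by simp [pairwise_append],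
    by simp; omega⟩ (by simp [count_replicate])
  generalize G.A.sup length = m at this
  simp [count_replicate] at this

end Pool.Agent.Results.MP_47ab97_lc.Sep
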